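import Pool.Agent.W2helper68.DL.Stm2

/-!
# Job B2 of the D0L first-difference project (MP_52de8b_co)
-/

set_option autoImplicit false

namespace Pool.Agent.W2helper89.DL

open Pool.Agent.W2helper68.DL

/-- pigeonhole for values modulo `q` -/
theorem exists_mod_eq (f : ℕ → ℤ) (q : ℤ) (hq : 1 ≤ q) :
    ∃ s1 s2 : ℕ, s1 < s2 ∧ (s2 : ℤ) ≤ q ∧ q ∣ f s2 - f s1 := by
  classical
  have hmap : ∀ s ∈ Finset.range (q.toNat + 1), (f s % q).toNat ∈ Finset.range q.toNat := by
    intro s _
    have h1 := Int.emod_nonneg (f s) (show q ≠ 0 by omega)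
    have h2 := Int.emod_lt_of_pos (f s) (show 0 < q by omega)
    simp only [Finset.mem_range]
    omega
  obtain ⟨s1, hs1, s2, hs2, hne, he⟩ := Finset.exists_ne_map_eq_of_card_lt_of_maps_to
    (by simp) hmap
  have h1 := Int.emod_nonneg (f s1) (show q ≠ 0 by omega)
  have h2 := Int.emod_nonneg (f s2) (show q ≠ 0 by omega)
  have he' : f s1 % q = f s2 % q := by omega
  simp only [Finset.mem_range] at hs1 hs2
  rcases lt_or_gt_of_ne hne with h | h
  · exact ⟨s1, s2, h, by omega, Int.ModEq.dvd he'⟩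
  · exact ⟨s2, s1, h, by omega, Int.ModEq.dvd he'.symm⟩

section
variable {A B : Type} {y : ℤ → A} {x : ℤ → B} {c : ℤ → ℤ} {Λ K : ℤ}

/-- a period at level 0 gives a period (not larger) at level 1 -/
theorem parent_per (h : Cut y x c Λ)
    (DR : ∀ p q, Agr x (c p) (c q) 0 K → y p = y q)
    (DL : ∀ p q, Agr x (c p) (c q) (-K) 0 → y (p - 1) = y (q - 1))
    {q a b : ℤ} (hq : 1 ≤ q) (hper : Per x q a b) (hK : 0 ≤ K)
    (hlen : a + 2 * K + Λ * (q + 2) ≤ b) :
    ∃ r, 1 ≤ r ∧ r ≤ q ∧ ∀ P P' : ℤ, a + K ≤ c P → c P' ≤ b - K → Per y r P P' := by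
  have hΛ := h.two_le
  obtain ⟨r0, hr1, hr2⟩ := h.exists_cut (a + K)
  have hr3 : c r0 ≤ c (r0 - 1) + Λ := by
    have := h.hi (r0 - 1); rwa [show r0 - 1 + 1 = r0 by ring] at this
  obtain ⟨s1, s2, hs, hsq, hd⟩ := exists_mod_eq (fun s => c (r0 + s)) q hq
  obtain ⟨k, hk⟩ := hd
  have hlt : c (r0 + s1) < c (r0 + s2) := h.lt_iff.2 (by omega)
  have hk0 : 0 < k := by
    by_contra hc
    push Not at hc
    have : q * k ≤ 0 := by nlinarith
    omega
  have hkper : Per x (q * k) a b := by
    have := hper.mul (by omega) k.toNat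
    rw [show ((k.toNat : ℕ) : ℤ) = k from Int.toNat_of_nonneg (by omega)] at this
    rwa [mul_comm] at this
  have hle2 : c (r0 + s2) ≤ b - K := by
    have := h.add_hi (show r0 ≤ r0 + s2 by omega)
    have e : Λ * (r0 + s2 - r0) ≤ Λ * q := by nlinarith
    have e2 : Λ * (q + 2) = Λ * q + 2 * Λ := by ring
    omega
  have hge1 : a + K ≤ c (r0 + s1) := by
    have := h.mono (show r0 ≤ r0 + s1 by omega)
    omega
  set r1 : ℤ := r0 + s1 with hr1def
  set r : ℤ := s2 - s1 with hrdef
  have hr12 : r0 + s2 = r1 + r := by omega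
  rw [hr12] at hk hle2 hlt
  refine ⟨r, by omega, by omega, fun P P' hP hP' => ?_⟩
  intro t ht1 ht2
  have hag : Agr x a (a + q * k) 0 (b - a - q * k) := by
    intro u hu1 hu2
    have := hkper (a + u) (by omega) (by omega)
    rw [this]; congr 1; ring
  by_cases hc : r1 ≤ t
  · have claim : ∀ s : ℕ, r1 + r + s ≤ P' → c (r1 + s) - a = c (r1 + r + s) - (a + q * k) := by
      intro s
      induction s using Nat.strong_induction_on with
      | _ s ih =>
        intro hs
        exact (match_right h K DR (i := a) (j := a + q * k) (n := b - a - q * k) (p := r1)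
          (q := r1 + r) hag (by omega) (by omega) s (fun s' hs' => by
            have h1 := ih s' hs' (by omega)
            have h2 := h.mono (show r1 + r + s' ≤ P' by omega)
            omega)).1
    have hm := (match_right h K DR (i := a) (j := a + q * k) (n := b - a - q * k) (p := r1)
      (q := r1 + r) hag (by omega) (by omega) ((t - r1).toNat + 1) (fun s hs => by
        have h1 := claim s (by omega)
        have h2 := h.mono (show r1 + r + s ≤ P' by omega)
        omega)).2 (t - r1).toNat (by omega)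
    rw [show ((t - r1).toNat : ℤ) = t - r1 from Int.toNat_of_nonneg (by omega)] at hm
    rw [show r1 + (t - r1) = t by ring, show r1 + r + (t - r1) = t + r by ring] at hm
    exact hm
  · have hm := (match_left h K DL (i := a) (j := a + q * k) (n := b - a - q * k) (p := r1)
      (q := r1 + r) hag (by omega) (by omega) ((r1 - 1 - t).toNat + 1) (fun s hs => by
        have := h.mono (show P ≤ r1 - s by omega)
        omega)).2 (r1 - 1 - t).toNat (by omega)
    rw [show ((r1 - 1 - t).toNat : ℤ) = r1 - 1 - t from Int.toNat_of_nonneg (by omega)] at hm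
    rw [show r1 - 1 - (r1 - 1 - t) = t by ring, show r1 + r - 1 - (r1 - 1 - t) = t + r by ring] at hm
    exact hm

/-- image of a periodic stretch -/
theorem image_per (h : Cut y x c Λ) {q P P' : ℤ} (hq : 1 ≤ q) (hPP : P + q ≤ P')
    (hper : Per y q P P') :
    Per x (c (P + q) - c P) (c P) (c P') := by
  have hag : Agr y P (P + q) 0 (P' - P - q) := by
    intro t h1 h2
    have := hper (P + t) (by omega) (by omega)
    rw [this]; congr 1; ring
  obtain ⟨h1, h2⟩ := h.agr le_rfl (by omega) hag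
  have h3 := h1 (P' - P - q) (by omega) le_rfl
  rw [show P + (P' - P - q) = P' - q by ring, show P + q + (P' - P - q) = P' by ring] at h3
  rw [show P + (P' - P - q) = P' - q by ring, show P + 0 = P by ring] at h2
  intro t ht1 ht2
  have := h2 (t - c P) (by omega) (by omega)
  rw [show c P + (t - c P) = t by ring] at this
  rw [this]; congr 1; ring

/-- left rigidity makes runs in left special words extend to the left end -/
theorem left_ext {Q : ℤ} {c0 D M1 : ℤ} (hc0 : 0 ≤ c0)
    (hR : ∀ q a1 a2 : ℤ, 1 ≤ q → q ≤ Q →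
      Per y q a1 (a1 + M1) → y (a1 - 1) ≠ y (a1 - 1 + q) →
      Per y q a2 (a2 + M1) → y (a2 - 1) ≠ y (a2 - 1 + q) →
      Agr y a1 a2 (-c0) M1 → Agr y a1 a2 (-(D + 1)) 0)
    {q p p' n : ℤ} (hq : 1 ≤ q) (hqQ : q ≤ Q)
    (hn : 2 * D + M1 + Q ≤ n) (hn' : 2 * D + Q ≤ n) (hD : c0 ≤ D)
    (hper : Per y q (p + D) (p + n - D))
    (hag : Agr y p p' 0 n) (hne : y (p - 1) ≠ y (p' - 1)) :
    Per y q (p + c0) (p + n - D) := by
  -- the least `a` in `[p, p+D]` such that the period holds from `a` on
  obtain ⟨a, ⟨ha1, ha2⟩, ha3⟩ := Int.exists_least_of_bdd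
    (P := fun a => p ≤ a ∧ Per y q a (p + n - D)) ⟨p, fun z hz => hz.1⟩
    ⟨p + D, by omega, hper⟩
  have haD : a ≤ p + D := ha3 (p + D) ⟨by omega, hper⟩
  by_cases hc : a ≤ p + c0
  · exact ha2.mono hc le_rfl
  exfalso
  push Not at hc
  have hex : y (a - 1) ≠ y (a - 1 + q) := by
    intro he
    have := ha3 (a - 1) ⟨by omega, fun t ht1 ht2 => by
      by_cases h : t = a - 1
      · rw [h]; exact he
      · exact ha2 t (by omega) ht2⟩
    omega
  have htr : ∀ t, p ≤ t → t < p + n → y t = y (t + (p' - p)) := by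
    intro t h1 h2
    have := hag (t - p) (by omega) (by omega)
    rw [show p + (t - p) = t by ring] at this
    rw [this]; congr 1; ring
  have hR' := hR q a (a + (p' - p)) hq hqQ (ha2.mono le_rfl (by omega)) hex
    (by
      intro t h1 h2
      have e1 := htr (t - (p' - p)) (by omega) (by omega)
      have e2 := htr (t - (p' - p) + q) (by omega) (by omega)
      have e3 := ha2 (t - (p' - p)) (by omega) (by omega)
      rw [show t - (p' - p) + (p' - p) = t by ring] at e1
      rw [show t - (p' - p) + q + (p' - p) = t + q by ring] at e2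
      rw [← e1, ← e2, e3])
    (by
      have e1 := htr (a - 1) (by omega) (by omega)
      have e2 := htr (a - 1 + q) (by omega) (by omega)
      rw [show a + (p' - p) - 1 = a - 1 + (p' - p) by ring,
        show a - 1 + (p' - p) + q = a - 1 + q + (p' - p) by ring, ← e1, ← e2]
      exact hex)
    (by
      intro t h1 h2
      have e1 := htr (a + t) (by omega) (by omega)
      rw [e1]; congr 1; ring)
  have := hR' (p - 1 - a) (by omega) (by omega)
  rw [show a + (p - 1 - a) = p - 1 by ring, show a + (p' - p) + (p - 1 - a) = p' - 1 by ring] at this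
  exact hne this

end

theorem jobB2 : JobB2 := by
  intro A B _ _ y x c e Λ K Q0 hyy hyx Q hQ hR
  have hΛ := hyx.toCut.two_le
  have hK := hyx.K0
  have hQ0 := hyx.Q01
  have hQQ : Q0 ≤ Q := by nlinarith
  obtain ⟨⟨M0, hM0⟩, ⟨c0, hc0, hrig⟩⟩ := hR A y e Λ K Q0 hyy Q hQQ
  obtain ⟨-, ⟨c1, hc1, hrig'⟩⟩ := hR A (rv y) (rvc e) Λ K Q0 hyy.rev Q hQQ
  refine ⟨Λ * c0 + Λ * c1 + K, fun D hD => ?_⟩
  obtain ⟨M1, hM1⟩ := hrig (D + 1)
  obtain ⟨M2, hM2⟩ := hrig' (D + 1)
  have hΛc0 : 2 * c0 ≤ Λ * c0 := by nlinarith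
  have hΛc1 : 2 * c1 ≤ Λ * c1 := by nlinarith
  refine ⟨2 * D + Λ * (Q + 2) + 2 * K + max M0 0 + max M1 0 + max M2 0 + Q, ?_⟩
  have hM0' : M0 ≤ max M0 0 := le_max_left _ _
  have hM0'' : 0 ≤ max M0 0 := le_max_right _ _
  have hM1' : M1 ≤ max M1 0 := le_max_left _ _
  have hM1'' : 0 ≤ max M1 0 := le_max_right _ _
  have hM2' : M2 ≤ max M2 0 := le_max_left _ _
  have hM2'' : 0 ≤ max M2 0 := le_max_right _ _
  have hΛQ : 2 * (Q + 2) ≤ Λ * (Q + 2) := by nlinarith
  intro p n a' b' ha0 ha hb0 hb hn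
  have hdist := hyx.toCut.add_le (show p ≤ p + n by omega)
  constructor
  · rintro ⟨q, hq1, hq2, hper⟩
    have hΛq : Λ * (q + 2) ≤ Λ * (Q + 2) := by nlinarith
    obtain ⟨r, hr1, hr2, hr3⟩ := parent_per hyx.toCut hyx.DR hyx.DL hq1 hper hK (by omega)
    refine ⟨r, hr1, by omega, hr3 _ _ ?_ ?_⟩
    · have := hyx.toCut.add_le (show p ≤ p + D by omega)
      omega
    · have := hyx.toCut.add_le (show p + n - D ≤ p + n by omega)
      omega
  · rintro ⟨q, hq1, hq2, hper⟩ ⟨p', hag, hne⟩ ⟨p'', hag', hne'⟩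
    have hL : Per y q (p + c0) (p + n - D) :=
      left_ext hc0 hM1 hq1 hq2 (by omega) (by omega) (by omega) hper hag hne
    have hRt : Per y q (p + D) (p + n - c1) := by
      have h1 : Per (rv y) q (-(p + n) + D) (-(p + n) + n - D) :=
        (hper.rv).mono (by omega) (by omega)
      have h2 : Agr (rv y) (-(p + n)) (-(p'' + n)) 0 n := by
        have := (hag'.shift' (i' := p + n) (j' := p'' + n) (a' := -n) (b' := 0) (by omega)
          (by omega) (by omega)).rv
        exact this.mono (by omega) (by omega)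
      have h3 : rv y (-(p + n) - 1) ≠ rv y (-(p'' + n) - 1) := by
        unfold rv
        rw [show -1 - (-(p + n) - 1) = p + n by ring, show -1 - (-(p'' + n) - 1) = p'' + n by ring]
        exact hne'
      have h4 := left_ext hc1 hM2 hq1 hq2 (by omega) (by omega) (by omega) h1 h2 h3
      have h5 := h4.rv
      rw [rv_rv] at h5
      exact h5.mono (by omega) (by omega)
    have hall : Per y q (p + c0) (p + n - c1) := by
      intro t ht1 ht2
      by_cases hc : t + q < p + n - D
      · exact hL t ht1 hc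
      · exact hRt t (by omega) ht2
    obtain ⟨q0, hq01, hq02, hper0⟩ := hM0 q _ _ hq1 hq2 (by omega) hall
    have himg := image_per hyx.toCut hq01 (by omega) hper0
    have hlo := hyx.toCut.add_le (show p + c0 ≤ p + c0 + q0 by omega)
    have hhi := hyx.toCut.add_hi (show p + c0 ≤ p + c0 + q0 by omega)
    have hΛq0 : Λ * (p + c0 + q0 - (p + c0)) ≤ Λ * Q0 := by nlinarith
    refine ⟨_, by omega, by omega, himg.mono ?_ ?_⟩
    · have := hyx.toCut.add_hi (show p ≤ p + c0 by omega)
      have e : Λ * (p + c0 - p) = Λ * c0 := by ring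
      have : 0 ≤ Λ * c1 := by positivity
      omega
    · have := hyx.toCut.add_hi (show p + n - c1 ≤ p + n by omega)
      have e : Λ * (p + n - (p + n - c1)) = Λ * c1 := by ring
      have : 0 ≤ Λ * c0 := by positivity
      omega

end Pool.Agent.W2helper89.DL
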